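import Pool.Agent.Helper28_TP.DyS

/-!
# Squad TPM, module SST: the sum over disjoint blocks
-/

namespace Pool.Agent.TP.H64

open Pool.Agent.TP

/-- `i ^ (- (k + 2) / 2)` -/
noncomputable def fk (k i : ℕ) : ℝ := (Real.sqrt i ^ (k + 2))⁻¹

theorem fk_nonneg (k i : ℕ) : 0 ≤ fk k i := by unfold fk; positivity

theorem harm (k : ℕ) : ∃ C : ℝ, 0 < C ∧ ∀ A : ℕ, ∑ i ∈ Finset.Icc 1 (2 ^ (A + 1)), fk k i ≤
    C * Lw k A := by
  rcases Nat.eq_zero_or_pos k with hk | hk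
  · subst hk
    refine ⟨2, by norm_num, fun A => ?_⟩
    have h1 : ∑ i ∈ Finset.Icc 1 (2 ^ (A + 1)), fk 0 i = ((harmonic (2 ^ (A + 1)) : ℚ) : ℝ) := by
      rw [harmonic_eq_sum_Icc, Rat.cast_sum]
      refine Finset.sum_congr rfl fun i _ => ?_
      unfold fk
      rw [Real.sq_sqrt (Nat.cast_nonneg i)]
      push_cast
      rfl
    have h2 := harmonic_le_one_add_log (2 ^ (A + 1))
    rw [h1]
    refine h2.trans ?_
    unfold Lw
    rw [if_pos rfl]
    push_cast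
    rw [Real.log_pow]
    have h3 : Real.log 2 ≤ 1 := by
      have := Real.log_two_lt_d9
      linarith
    have h4 : (0 : ℝ) ≤ A := Nat.cast_nonneg A
    push_cast
    nlinarith
  · have hs : Summable fun i : ℕ => 1 / (i : ℝ) ^ (3 / 2 : ℝ) :=
      Real.summable_one_div_nat_rpow.mpr (by norm_num)
    refine ⟨∑' i : ℕ, 1 / (i : ℝ) ^ (3 / 2 : ℝ) + 1, ?_, fun A => ?_⟩
    · have : 0 ≤ ∑' i : ℕ, 1 / (i : ℝ) ^ (3 / 2 : ℝ) := tsum_nonneg fun i => by positivity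
      linarith
    · have h1 : ∀ i ∈ Finset.Icc 1 (2 ^ (A + 1)), fk k i ≤ 1 / (i : ℝ) ^ (3 / 2 : ℝ) := by
        intro i hi
        rw [Finset.mem_Icc] at hi
        have hi1 : (1 : ℝ) ≤ i := by exact_mod_cast hi.1
        have hi0 : (0 : ℝ) < i := by linarith
        have h2 : (i : ℝ) ^ (3 / 2 : ℝ) = Real.sqrt i ^ 3 := by
          rw [Real.sqrt_eq_rpow, ← Real.rpow_natCast, ← Real.rpow_mul hi0.le]
          norm_num
        have h3 : (1 : ℝ) ≤ Real.sqrt i := by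
          rw [show (1 : ℝ) = Real.sqrt 1 by rw [Real.sqrt_one]]
          exact Real.sqrt_le_sqrt hi1
        have h4 : Real.sqrt i ^ 3 ≤ Real.sqrt i ^ (k + 2) :=
          pow_le_pow_right₀ h3 (by omega)
        unfold fk
        rw [h2, one_div]
        exact inv_anti₀ (by positivity) h4
      have h2 : ∑ i ∈ (Finset.Icc 1 (2 ^ (A + 1)) : Finset ℕ), 1 / ((i : ℕ) : ℝ) ^ (3 / 2 : ℝ) ≤
          ∑' i : ℕ, 1 / (i : ℝ) ^ (3 / 2 : ℝ) :=
        hs.sum_le_tsum _ fun i _ => by positivity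
      have h3 := Finset.sum_le_sum h1
      unfold Lw
      rw [if_neg (by omega), mul_one]
      linarith

/-- The weight of a block. -/
theorem weight (k a s u : ℕ) (hu : u ≤ s) :
    Real.sqrt (2 ^ a) ^ (-(k : ℤ)) * (if u = s then 1 else
      min 1 (Real.sqrt (2 ^ a / ((s : ℕ) - (u : ℝ))) ^ (k + 2))) ≤
    2 ^ a * (Real.sqrt (max (2 ^ a) ((s : ℝ) - u)) ^ (k + 2))⁻¹ := by
  have hN : (0 : ℝ) < 2 ^ a := by positivity
  set N : ℝ := 2 ^ a with hNdef
  have hsN : 0 < Real.sqrt N := Real.sqrt_pos.mpr hN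
  have e1 : Real.sqrt N ^ (-(k : ℤ)) = N * (Real.sqrt N ^ (k + 2))⁻¹ := by
    rw [zpow_neg, zpow_natCast, pow_add, Real.sq_sqrt hN.le, mul_inv]
    field_simp
  have hus : (u : ℝ) ≤ s := by exact_mod_cast hu
  have h0 : 0 < Real.sqrt N ^ (-(k : ℤ)) := by positivity
  by_cases h1 : u = s
  · subst h1
    rw [if_pos rfl, mul_one, sub_self, max_eq_left hN.le, e1]
  · rw [if_neg h1]
    have hD : (0 : ℝ) < (s : ℝ) - u := by
      have : (u : ℝ) < s := by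
        exact_mod_cast lt_of_le_of_ne hu h1
      linarith
    rcases le_total ((s : ℝ) - u) N with h2 | h2
    · rw [max_eq_left h2, ← e1]
      calc Real.sqrt N ^ (-(k : ℤ)) * min 1 (Real.sqrt (N / ((s : ℝ) - u)) ^ (k + 2)) ≤
          Real.sqrt N ^ (-(k : ℤ)) * 1 :=
            mul_le_mul_of_nonneg_left (min_le_left _ _) h0.le
        _ = _ := mul_one _
    · rw [max_eq_right h2]
      calc Real.sqrt N ^ (-(k : ℤ)) * min 1 (Real.sqrt (N / ((s : ℝ) - u)) ^ (k + 2)) ≤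
          Real.sqrt N ^ (-(k : ℤ)) * Real.sqrt (N / ((s : ℝ) - u)) ^ (k + 2) :=
            mul_le_mul_of_nonneg_left (min_le_right _ _) h0.le
        _ = N * (Real.sqrt ((s : ℝ) - u) ^ (k + 2))⁻¹ := by
          rw [Real.sqrt_div hN.le, div_pow, e1]
          have : Real.sqrt N ^ (k + 2) ≠ 0 := by positivity
          field_simp

theorem sst : SstStmt := by
  classical
  intro k
  obtain ⟨C0, hC0, hsum⟩ := harm k
  have h3 : (0 : ℝ) < Real.sqrt 3 ^ (k + 2) := by positivity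
  refine ⟨Real.sqrt 3 ^ (k + 2) * C0, mul_pos h3 hC0, ?_⟩
  intro A 𝒥 hJ u hu
  set 𝒥' := 𝒥.filter (fun J => u ≤ (J.2 - 1) * 2 ^ J.1) with h𝒥'
  let blk : ℕ × ℕ → Finset ℕ := fun J => Finset.Ico (J.2 * 2 ^ J.1) ((J.2 + 1) * 2 ^ J.1)
  have hpos : ∀ J ∈ 𝒥', u + 2 ^ J.1 ≤ J.2 * 2 ^ J.1 ∧ 1 ≤ J.2 := by
    intro J hJ'
    rw [h𝒥', Finset.mem_filter] at hJ'
    obtain ⟨h1, h2⟩ := hJ'
    obtain ⟨-, h4, -⟩ := hJ.1 J h1
    have h5 : J.2 ≠ 0 := by
      intro h0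
      rw [h0, zero_mul] at h4
      have := Nat.pos_of_ne_zero (pow_ne_zero A (two_ne_zero (α := ℕ)))
      omega
    obtain ⟨j, hj⟩ : ∃ j, J.2 = j + 1 := ⟨J.2 - 1, by omega⟩
    rw [hj] at h2 ⊢
    simp only [Nat.add_sub_cancel] at h2
    refine ⟨?_, by omega⟩
    rw [add_mul, one_mul]
    omega
  have hterm : ∀ J ∈ 𝒥', Real.sqrt (2 ^ J.1) ^ (-(k : ℤ)) *
      (if u = (J.2 - 1) * 2 ^ J.1 then 1 else
        min 1 (Real.sqrt (2 ^ J.1 / (((J.2 - 1) * 2 ^ J.1 : ℕ) - (u : ℝ))) ^ (k + 2))) ≤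
      ∑ y ∈ blk J, Real.sqrt 3 ^ (k + 2) * fk k (y - u) := by
    intro J hJ'
    obtain ⟨h1, h2⟩ := hpos J hJ'
    have hu1 : u ≤ (J.2 - 1) * 2 ^ J.1 := (Finset.mem_filter.mp hJ').2
    refine (weight k J.1 ((J.2 - 1) * 2 ^ J.1) u hu1).trans ?_
    set m : ℝ := max (2 ^ J.1) ((((J.2 - 1) * 2 ^ J.1 : ℕ) : ℝ) - u) with hm
    have hm0 : 0 < m := lt_of_lt_of_le (by positivity) (le_max_left _ _)
    have hy : ∀ y ∈ blk J, (Real.sqrt m ^ (k + 2))⁻¹ ≤
        Real.sqrt 3 ^ (k + 2) * fk k (y - u) := by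
      intro y hy
      rw [Finset.mem_Ico] at hy
      have h5 : 1 ≤ y - u := by
        have := Nat.pos_of_ne_zero (pow_ne_zero J.1 (two_ne_zero (α := ℕ)))
        omega
      have h6 : (((y - u : ℕ)) : ℝ) ≤ 3 * m := by
        have h7 : y - u ≤ ((J.2 - 1) * 2 ^ J.1 - u) + 2 * 2 ^ J.1 := by
          obtain ⟨j, hj⟩ : ∃ j, J.2 = j + 1 := ⟨J.2 - 1, by omega⟩
          rw [hj] at hy hu1 ⊢
          simp only [Nat.add_sub_cancel] at hu1 ⊢
          have h8 : (j + 1 + 1) * 2 ^ J.1 = j * 2 ^ J.1 + 2 * 2 ^ J.1 := by ring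
          omega
        have h8 : (((y - u : ℕ)) : ℝ) ≤ ((((J.2 - 1) * 2 ^ J.1 - u : ℕ)) : ℝ) + 2 * 2 ^ J.1 := by
          exact_mod_cast h7
        rw [Nat.cast_sub hu1] at h8
        have h9 := le_max_left (2 ^ J.1 : ℝ) ((((J.2 - 1) * 2 ^ J.1 : ℕ) : ℝ) - u)
        have h10 := le_max_right (2 ^ J.1 : ℝ) ((((J.2 - 1) * 2 ^ J.1 : ℕ) : ℝ) - u)
        rw [← hm] at h9 h10
        linarith
      have h7 : 0 < (((y - u : ℕ)) : ℝ) := by exact_mod_cast h5
      have h8 : Real.sqrt ((y - u : ℕ) : ℝ) ≤ Real.sqrt 3 * Real.sqrt m := by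
        rw [← Real.sqrt_mul (by norm_num)]
        exact Real.sqrt_le_sqrt h6
      have h9 : Real.sqrt ((y - u : ℕ) : ℝ) ^ (k + 2) ≤
          Real.sqrt 3 ^ (k + 2) * Real.sqrt m ^ (k + 2) := by
        rw [← mul_pow]
        exact pow_le_pow_left₀ (Real.sqrt_nonneg _) h8 _
      have h10 : 0 < Real.sqrt ((y - u : ℕ) : ℝ) ^ (k + 2) := by positivity
      have h11 : 0 < Real.sqrt m ^ (k + 2) := by positivity
      unfold fk
      rw [inv_le_iff_one_le_mul₀ h11, mul_assoc, mul_comm (Real.sqrt ((y - u : ℕ) : ℝ) ^ (k + 2))⁻¹,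
        ← mul_assoc, ← div_eq_mul_inv, le_div_iff₀ h10, one_mul]
      exact h9
    have hcard : ((blk J).card : ℝ) = 2 ^ J.1 := by
      have : (blk J).card = 2 ^ J.1 := by
        rw [Nat.card_Ico, add_mul, one_mul, Nat.add_sub_cancel_left]
      rw [this]; push_cast; rfl
    calc (2 : ℝ) ^ J.1 * (Real.sqrt m ^ (k + 2))⁻¹ = ∑ _y ∈ blk J, (Real.sqrt m ^ (k + 2))⁻¹ := by
          rw [Finset.sum_const, nsmul_eq_mul, hcard]
      _ ≤ _ := Finset.sum_le_sum hy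
  have hdisj : ∀ J ∈ 𝒥', ∀ J' ∈ 𝒥', J ≠ J' → Disjoint (blk J) (blk J') := by
    intro J h1 J' h2 hne
    rw [Finset.disjoint_left]
    intro y hy hy'
    rw [Finset.mem_Ico] at hy hy'
    rcases hJ.2 J (Finset.mem_filter.mp h1).1 J' (Finset.mem_filter.mp h2).1 hne with h | h <;> omega
  calc _ ≤ ∑ J ∈ 𝒥', ∑ y ∈ blk J, Real.sqrt 3 ^ (k + 2) * fk k (y - u) :=
        Finset.sum_le_sum hterm
    _ = ∑ y ∈ 𝒥'.biUnion blk, Real.sqrt 3 ^ (k + 2) * fk k (y - u) :=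
        (Finset.sum_biUnion fun J h1 J' h2 hne => hdisj J h1 J' h2 hne).symm
    _ = Real.sqrt 3 ^ (k + 2) * ∑ y ∈ 𝒥'.biUnion blk, fk k (y - u) := by rw [Finset.mul_sum]
    _ ≤ Real.sqrt 3 ^ (k + 2) * ∑ i ∈ Finset.Icc 1 (2 ^ (A + 1)), fk k i := by
        apply mul_le_mul_of_nonneg_left _ h3.le
        have hmem : ∀ y ∈ 𝒥'.biUnion blk, u < y ∧ y < 2 ^ (A + 1) := by
          intro y hy
          rw [Finset.mem_biUnion] at hy
          obtain ⟨J, h1, h2⟩ := hy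
          rw [Finset.mem_Ico] at h2
          have h4 := (hpos J h1).1
          obtain ⟨-, -, h5⟩ := hJ.1 J (Finset.mem_filter.mp h1).1
          have := Nat.pos_of_ne_zero (pow_ne_zero J.1 (two_ne_zero (α := ℕ)))
          omega
        have hinj : Set.InjOn (fun y => y - u) (𝒥'.biUnion blk : Finset ℕ) := by
          intro y hy y' hy' h
          have h1 := hmem y hy
          have h2 := hmem y' hy'
          change y - u = y' - u at h
          omega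
        rw [← Finset.sum_image (f := fk k) (g := fun y => y - u) hinj]
        apply Finset.sum_le_sum_of_subset_of_nonneg
        · intro i hi
          rw [Finset.mem_image] at hi
          obtain ⟨y, hy, rfl⟩ := hi
          have h1 := hmem y hy
          rw [Finset.mem_Icc]
          omega
        · intro i _ _
          exact fk_nonneg k i
    _ ≤ Real.sqrt 3 ^ (k + 2) * (C0 * Lw k A) := mul_le_mul_of_nonneg_left (hsum A) h3.le
    _ = _ := by ring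

end Pool.Agent.TP.H64
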