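import Pool.Agent.Helper28_TP.StS

/-!
# Squad TPM, module CNT: sums over connected sets
-/

namespace Pool.Agent.TP.H64

open Pool.Agent.TP

theorem sum_bU {ι α : Type} [DecidableEq α] (s : Finset ι) (t : ι → Finset α) (f : α → ℝ)
    (hf : ∀ a, 0 ≤ f a) : ∑ a ∈ s.biUnion t, f a ≤ ∑ i ∈ s, ∑ a ∈ t i, f a := by
  classical
  induction s using Finset.induction_on with
  | empty => simp
  | insert i s hi ih =>
    rw [Finset.biUnion_insert, Finset.sum_insert hi]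
    have h1 := Finset.sum_union_inter (s₁ := t i) (s₂ := s.biUnion t) (f := f)
    have h2 : 0 ≤ ∑ a ∈ t i ∩ s.biUnion t, f a := Finset.sum_nonneg fun a _ => hf a
    linarith

theorem cnt_aux (hA : An8Stmt) (δ : ℝ) (hδ : 0 ≤ δ) (j : ℕ) (v : ℤ × ℤ)
    (𝒜 : Finset (Finset (ℤ × ℤ))) (h : ∀ T ∈ 𝒜, v ∈ T ∧ T.card = j ∧ SC T) :
    ∑ T ∈ 𝒜, δ ^ T.card ≤ (64 * δ) ^ j := by
  rw [Finset.sum_congr rfl (g := fun _ => δ ^ j) (fun T hT => by rw [(h T hT).2.1]),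
    Finset.sum_const, nsmul_eq_mul, mul_pow]
  apply mul_le_mul_of_nonneg_right _ (pow_nonneg hδ j)
  exact_mod_cast hA j v 𝒜 h

theorem geom_aux (x : ℝ) (hx : 0 ≤ x) (hx2 : x ≤ 1 / 16) (h : ℕ) :
    ∑ j ∈ Finset.Icc 1 h, x ^ j ≤ 1 / 8 := by
  have h1 : ∀ h : ℕ, ∑ j ∈ Finset.Icc 1 h, x ^ j ≤ 1 / 8 - (1 / 8) * (1 / 16) ^ h := by
    intro h
    induction h with
    | zero => simp
    | succ h ih =>
      rw [Finset.sum_Icc_succ_top (by omega)]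
      have h2 : x ^ (h + 1) ≤ (1 / 16) ^ (h + 1) := pow_le_pow_left₀ hx hx2 _
      have h3 : (0 : ℝ) ≤ (1 / 16) ^ h := by positivity
      rw [pow_succ (1 / 16 : ℝ) h] at h2 ⊢
      nlinarith
  have h2 : (0 : ℝ) ≤ (1 / 8) * (1 / 16) ^ h := by positivity
  linarith [h1 h]

theorem cnt (hA : An8Stmt) : CntStmt := by
  classical
  intro Reg δ hδ hδ2 h x₀ 𝒯
  have hx0 : 0 ≤ 64 * δ := by linarith
  refine ⟨fun hT => ?_, fun hT => ?_⟩
  · have hsub : 𝒯 ⊆ (Finset.Icc 1 h).biUnion fun j =>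
        (𝒯.filter fun T => (x₀, (h : ℤ) + j) ∈ T ∧ T.card = j ∧ SC T) ∪
          (𝒯.filter fun T => (x₀, (h : ℤ) - j) ∈ T ∧ T.card = j ∧ SC T) := by
      intro T hT1
      obtain ⟨h1, j, h2, h3, h4, h5⟩ := hT T hT1
      rw [Finset.mem_biUnion]
      refine ⟨j, Finset.mem_Icc.mpr ⟨h2, h3⟩, ?_⟩
      rw [Finset.mem_union, Finset.mem_filter, Finset.mem_filter]
      rcases h5 with h5 | h5
      · left; exact ⟨hT1, h5, h4, h1⟩
      · right; exact ⟨hT1, h5, h4, h1⟩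
    have hnn : ∀ T : Finset (ℤ × ℤ), 0 ≤ δ ^ T.card := fun T => pow_nonneg hδ _
    calc ∑ T ∈ 𝒯, δ ^ T.card ≤ ∑ T ∈ (Finset.Icc 1 h).biUnion fun j =>
        (𝒯.filter fun T => (x₀, (h : ℤ) + j) ∈ T ∧ T.card = j ∧ SC T) ∪
          (𝒯.filter fun T => (x₀, (h : ℤ) - j) ∈ T ∧ T.card = j ∧ SC T), δ ^ T.card :=
          Finset.sum_le_sum_of_subset_of_nonneg hsub fun T _ _ => hnn T
      _ ≤ ∑ j ∈ Finset.Icc 1 h, ∑ T ∈
        (𝒯.filter fun T => (x₀, (h : ℤ) + j) ∈ T ∧ T.card = j ∧ SC T) ∪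
          (𝒯.filter fun T => (x₀, (h : ℤ) - j) ∈ T ∧ T.card = j ∧ SC T), δ ^ T.card :=
          sum_bU _ _ _ hnn
      _ ≤ ∑ j ∈ Finset.Icc 1 h, 2 * (64 * δ) ^ j := by
          apply Finset.sum_le_sum
          intro j _
          have h1 := cnt_aux hA δ hδ j (x₀, (h : ℤ) + j)
            (𝒯.filter fun T => (x₀, (h : ℤ) + j) ∈ T ∧ T.card = j ∧ SC T)
            fun T hT => (Finset.mem_filter.mp hT).2
          have h2 := cnt_aux hA δ hδ j (x₀, (h : ℤ) - j)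
            (𝒯.filter fun T => (x₀, (h : ℤ) - j) ∈ T ∧ T.card = j ∧ SC T)
            fun T hT => (Finset.mem_filter.mp hT).2
          have h3 := Finset.sum_union_inter (s₁ := 𝒯.filter fun T => (x₀, (h : ℤ) + j) ∈ T ∧
            T.card = j ∧ SC T) (s₂ := 𝒯.filter fun T => (x₀, (h : ℤ) - j) ∈ T ∧ T.card = j ∧ SC T)
            (f := fun T => δ ^ T.card)
          have h4 : 0 ≤ ∑ T ∈ (𝒯.filter fun T => (x₀, (h : ℤ) + j) ∈ T ∧
            T.card = j ∧ SC T) ∩ (𝒯.filter fun T => (x₀, (h : ℤ) - j) ∈ T ∧ T.card = j ∧ SC T),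
            δ ^ T.card := Finset.sum_nonneg fun T _ => hnn T
          linarith
      _ = 2 * ∑ j ∈ Finset.Icc 1 h, (64 * δ) ^ j := by rw [Finset.mul_sum]
      _ ≤ 2 * (1 / 8) := by
          have := geom_aux (64 * δ) hx0 hδ2 h
          linarith
      _ = 1 / 4 := by norm_num
  · have hsub : 𝒯 ⊆ Reg.biUnion fun v => 𝒯.filter fun T => v ∈ T ∧ T.card = 2 * h + 1 ∧ SC T := by
      intro T hT1
      obtain ⟨h1, h2, h3⟩ := hT T hT1
      have h4 : T.Nonempty := by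
        rw [← Finset.card_pos, h3]; omega
      obtain ⟨v, hv⟩ := h4
      rw [Finset.mem_biUnion]
      exact ⟨v, h1 hv, Finset.mem_filter.mpr ⟨hT1, hv, h3, h2⟩⟩
    have hnn : ∀ T : Finset (ℤ × ℤ), 0 ≤ δ ^ T.card := fun T => pow_nonneg hδ _
    calc ∑ T ∈ 𝒯, δ ^ T.card ≤
        ∑ T ∈ Reg.biUnion fun v => 𝒯.filter fun T => v ∈ T ∧ T.card = 2 * h + 1 ∧ SC T,
          δ ^ T.card := Finset.sum_le_sum_of_subset_of_nonneg hsub fun T _ _ => hnn T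
      _ ≤ ∑ v ∈ Reg, ∑ T ∈ 𝒯.filter fun T => v ∈ T ∧ T.card = 2 * h + 1 ∧ SC T, δ ^ T.card :=
          sum_bU _ _ _ hnn
      _ ≤ ∑ _v ∈ Reg, (64 * δ) ^ (2 * h + 1) := by
          apply Finset.sum_le_sum
          intro v _
          exact cnt_aux hA δ hδ (2 * h + 1) v _ fun T hT => (Finset.mem_filter.mp hT).2
      _ = Reg.card * (64 * δ) ^ (2 * h + 1) := by
          rw [Finset.sum_const, nsmul_eq_mul]

end Pool.Agent.TP.H64
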